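import Pool.Agent.Y583.MG8

set_option autoImplicit false

/-!
# Categoricity implies `(H₁, ∞)`-tameness for abstract elementary classes of modules

`R` is a countable ring and `K` is an abstract elementary class with Löwenheim-Skolem number `ℵ₀`
whose members are `R`-modules (in the usual language `Lmod R` of `R`-modules). The strong
submodules are arbitrary. The amalgamation property is not assumed.

`hanf ℵ₀ = ℶ_((2 ^ ℵ₀)⁺)`.
-/

namespace Pool.Agent.Results.MP_c32da3_lc.ModulesTameness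

open Cardinal FirstOrder Pool.Agent.TH767.DS
open Pool.Agent.H288R4.LS (hanf)
open Pool.Agent.Y583.MC (embLin KKof KKof_emb main_coll_AEC same_of_code exists_code small_ext
  Coll OneStep OneStep.symm OneStep.trans tame_KK)

/-- The triples `(a, M, N)`: a strong embedding of `M` in a member `N` and an element `a` of `N`. -/
structure Triple {L : FirstOrder.Language.{0, 0}} (K : AEC L) (M : Type) [L.Structure M] where
  N : Type
  str : L.Structure N
  i : M ↪[L] N
  emb : K.emb i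
  a : N

attribute [instance] Triple.str

/-- `(a, M, N)` and `(a', M, N')` have the same Galois type over `M`, in one step: there are strong
embeddings of `N` and `N'` in some member that agree on `M` and map `a` and `a'` to the same
element. -/
def SameType {L : FirstOrder.Language.{0, 0}} {K : AEC L} {M : Type} [L.Structure M]
    (p q : Triple K M) : Prop :=
  ∃ (P : Type) (_ : L.Structure P) (f : p.N ↪[L] P) (g : q.N ↪[L] P), K.emb f ∧ K.emb g ∧
    (∀ x, f (p.i x) = g (q.i x)) ∧ f p.a = g q.a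

/-- The Galois types over `M`: the classes of triples for the equivalence relation generated by
`SameType` (if `K` has the amalgamation property, then `SameType` is an equivalence relation). -/
def GS {L : FirstOrder.Language.{0, 0}} (K : AEC L) (M : Type) [L.Structure M] : Type 1 :=
  Quot (SameType (K := K) (M := M))

section
variable {L : FirstOrder.Language.{0, 0}} {K : AEC L} {M₀ M : Type} [L.Structure M₀]
  [L.Structure M]

/-- the restriction of a triple along a strong embedding `M₀ → M` -/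
def Triple.restrict (p : Triple K M) (i : M₀ ↪[L] M) (hi : K.emb i) : Triple K M₀ where
  N := p.N
  str := p.str
  i := p.i.comp i
  emb := K.emb_comp _ _ p.emb hi
  a := p.a

theorem SameType.restrict {p q : Triple K M} (h : SameType p q) (i : M₀ ↪[L] M)
    (hi : K.emb i) : SameType (p.restrict i hi) (q.restrict i hi) := by
  obtain ⟨P, S, f, g, h1, h2, h3, h4⟩ := h
  exact ⟨P, S, f, g, h1, h2, fun x => h3 (i x), h4⟩

/-- the restriction of a Galois type over `M` to `M₀`, along a strong embedding `M₀ → M` -/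
def GS.restrict (p : GS K M) (i : M₀ ↪[L] M) (hi : K.emb i) : GS K M₀ :=
  Quot.map (fun p => Triple.restrict p i hi) (fun _ _ h => h.restrict i hi) p

theorem sameType_refl (p : Triple K M) : SameType p p :=
  ⟨p.N, p.str, Language.Embedding.refl L p.N, Language.Embedding.refl L p.N,
    K.emb_equiv (Language.Equiv.refl L p.N) (K.emb_mem _ p.emb).2,
    K.emb_equiv (Language.Equiv.refl L p.N) (K.emb_mem _ p.emb).2, fun _ => rfl, rfl⟩

end

/-- `K` is `(χ, ∞)`-tame: any two different Galois types over a member `M` of `K` have different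
restrictions to some strong submodel `M₀` of `M` of cardinality at most `χ`. -/
def Tame {L : FirstOrder.Language.{0, 0}} (K : AEC L) (χ : Cardinal.{0}) : Prop :=
  ∀ (M : Type) [L.Structure M], K.mem M → ∀ p q : GS K M, p ≠ q →
    ∃ (M₀ : Type) (_ : L.Structure M₀) (i : M₀ ↪[L] M) (hi : K.emb i), #M₀ ≤ χ ∧
      p.restrict i hi ≠ q.restrict i hi

section
attribute [local instance] modStr

variable {R : Type} [Ring R] {K : AEC (Lmod R)}

/-- small parts of a triple -/
def Small (hLS : K.LSat ℵ₀) {B : Type} [AddCommGroup B] [Module R B] (p : Triple K B) {N : Type}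
    [AddCommGroup N] [Module R N] (f : B →ₗ[R] N) (a : N) : Prop :=
  (KKof K hLS).emb f ∧ #N = #B ∧
    ∃ s : N ↪[Lmod R] p.N, K.emb s ∧ (∀ x, s (f x) = p.i x) ∧ s a = p.a

theorem exists_small [Countable R] (hLS : K.LSat ℵ₀)
    (hmod : ∀ (N : Type) (S : (Lmod R).Structure N), @AEC.mem _ K N S → IsMod R N S)
    {B : Type} [AddCommGroup B] [Module R B] (hB : ℵ₀ ≤ #B) (p : Triple K B) :
    ∃ (N : Type) (_ : AddCommGroup N) (_ : Module R N) (f : B →ₗ[R] N) (a : N),
      Small hLS p f a := by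
  obtain ⟨N, S, i, hi, a⟩ := p
  have hm := (K.emb_mem _ hi).2
  obtain ⟨i1, i2, rfl⟩ := hmod N S hm
  obtain ⟨S, f, h1, h2, h3, h4, h5⟩ := small_ext (embLin i) (KKof_emb K hLS i hi) a hB
  exact ⟨S, inferInstance, inferInstance, f, ⟨a, h2⟩, h4, h1, linEmb S.subtype h5.1, h5.2,
    fun x => h3 x, rfl⟩

theorem step (hLS : K.LSat ℵ₀)
    (hmod : ∀ (N : Type) (S : (Lmod R).Structure N), @AEC.mem _ K N S → IsMod R N S)
    {B : Type} [AddCommGroup B] [Module R B] {p q : Triple K B} (h : SameType p q)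
    {N N' : Type} [AddCommGroup N] [Module R N] [AddCommGroup N'] [Module R N']
    {f : B →ₗ[R] N} {f' : B →ₗ[R] N'} {a : N} {a' : N'} (hp : Small hLS p f a)
    (hq : Small hLS q f' a') : OneStep (KKof K hLS) f f' a a' := by
  obtain ⟨P, S, F, G, hF, hG, h1, h2⟩ := h
  obtain ⟨e1, e2, s, s1, s2, s3⟩ := hp
  obtain ⟨e1', e2', s', s1', s2', s3'⟩ := hq
  obtain ⟨i1, i2, rfl⟩ := hmod P S (K.emb_mem _ hF).2
  refine ⟨P, i1, i2, embLin (F.comp s), embLin (G.comp s'),
    KKof_emb K hLS _ (K.emb_comp _ _ hF s1), KKof_emb K hLS _ (K.emb_comp _ _ hG s1'),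
    fun x => ?_, ?_⟩
  · show F (s (f x)) = G (s' (f' x))
    rw [s2, s2', h1]
  · show F (s a) = G (s' a')
    rw [s3, s3', h2]

theorem gen [Countable R] (hLS : K.LSat ℵ₀)
    (hmod : ∀ (N : Type) (S : (Lmod R).Structure N), @AEC.mem _ K N S → IsMod R N S)
    {E D : Type} [AddCommGroup E] [Module R E] [AddCommGroup D] [Module R D]
    (hc : Coll (KKof K hLS) E D) {B : Type} [AddCommGroup B] [Module R B] (hB : hanf ℵ₀ ≤ #B)
    {p q : Triple K B} (h : Relation.EqvGen SameType p q) :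
    ∀ {N N' : Type} [AddCommGroup N] [Module R N] [AddCommGroup N'] [Module R N']
      {f : B →ₗ[R] N} {f' : B →ₗ[R] N'} {a : N} {a' : N'}, Small hLS p f a → Small hLS q f' a' →
      OneStep (KKof K hLS) f f' a a' := by
  have hH : ℵ₀ ≤ hanf ℵ₀ := (Pool.Agent.H288R4.LS.self_lt_hanf le_rfl).le
  induction h with
  | rel p q h =>
      intro N N' _ _ _ _ f f' a a' hp hq
      exact step hLS hmod h hp hq
  | refl p =>
      intro N N' _ _ _ _ f f' a a' hp hq
      exact step hLS hmod (sameType_refl p) hp hq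
  | symm p q _ ih =>
      intro N N' _ _ _ _ f f' a a' hp hq
      exact (ih hq hp).symm
  | trans p q r _ _ ih1 ih2 =>
      intro N N' _ _ _ _ f f' a a' hp hr
      obtain ⟨N₂, j1, j2, f₂, a₂, hq⟩ := exists_small hLS hmod (hH.trans hB) q
      exact OneStep.trans hc f f₂ f' a a₂ a' (hp.2.1.trans hq.2.1.symm)
        (hr.2.1.trans hq.2.1.symm) (hB.trans hq.2.1.ge) (ih1 hp hq) (ih2 hq hr)

/-- the standard triples -/
noncomputable def std (hLS : K.LSat ℵ₀) {M D : Type} [AddCommGroup M] [Module R M] [AddCommGroup D]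
    [Module R D] (hinl : (KKof K hLS).emb (LinearMap.inl R M (ℕ →₀ D))) (m : M) (w : ℕ →₀ D) :
    Triple K M where
  N := M × (ℕ →₀ D)
  str := modStr R _
  i := linEmb (LinearMap.inl R M (ℕ →₀ D)) hinl.1
  emb := hinl.2
  a := (m, w)

theorem norm [Countable R] (hLS : K.LSat ℵ₀)
    (hmod : ∀ (N : Type) (S : (Lmod R).Structure N), @AEC.mem _ K N S → IsMod R N S)
    {E D : Type} [AddCommGroup E] [Module R E] [AddCommGroup D] [Module R D]
    (hc : Coll (KKof K hLS) E D) {M : Type} [AddCommGroup M] [Module R M] (hM : hanf ℵ₀ ≤ #M)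
    (hinl : (KKof K hLS).emb (LinearMap.inl R M (ℕ →₀ D))) (p : Triple K M) :
    ∃ (m : M) (w : ℕ →₀ D), Quot.mk (SameType (K := K) (M := M)) p =
      Quot.mk _ (std hLS hinl m w) := by
  classical
  have hH : ℵ₀ ≤ hanf ℵ₀ := (Pool.Agent.H288R4.LS.self_lt_hanf le_rfl).le
  haveI := hc.cD
  obtain ⟨N, S, i, hi, a⟩ := p
  have hm := (K.emb_mem _ hi).2
  obtain ⟨i1, i2, rfl⟩ := hmod N S hm
  obtain ⟨S, f, h1, h2, h3, h4, h5⟩ := small_ext (embLin i) (KKof_emb K hLS i hi) a (hH.trans hM)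
  obtain ⟨ι, k, hk⟩ := hc.ovr M S f h4 hM h1.symm
  obtain ⟨n, v, e, hv⟩ := exists_code (k ⟨a, h2⟩).2
  let e₀ : Fin n ↪ ℕ := Fin.valEmbedding
  have hMY : #(M × (ℕ →₀ D)) = #M := by
    rw [mk_prod, Cardinal.lift_id, Cardinal.lift_id]
    exact mul_eq_left (hH.trans hM) ((mk_le_aleph0 (α := ℕ →₀ D)).trans (hH.trans hM))
      (mk_ne_zero _)
  obtain ⟨P, j1, j2, g, g', ⟨hg1, hg2⟩, ⟨hg1', hg2'⟩, hg3, hg4⟩ := same_of_code
    (hc.all _ hM) rfl h1 hMY f (LinearMap.inl R M (ℕ →₀ D)) h4 hinl k (LinearEquiv.refl R _) hk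
    (fun x => rfl) (k ⟨a, h2⟩).1 v e e₀ ⟨a, h2⟩ ((k ⟨a, h2⟩).1, Finsupp.mapDomain e₀ v)
    (Prod.ext rfl hv) rfl
  refine ⟨(k ⟨a, h2⟩).1, Finsupp.mapDomain e₀ v, ?_⟩
  have q1 : Quot.mk (SameType (K := K) (M := M)) ⟨N, modStr R N, i, hi, a⟩ =
      Quot.mk _ ⟨S, modStr R S, linEmb f h4.1, h4.2, ⟨a, h2⟩⟩ :=
    Quot.sound ⟨N, modStr R N, Language.Embedding.refl _ N, linEmb S.subtype h5.1,
      K.emb_equiv (Language.Equiv.refl (Lmod R) N) hm, h5.2, fun x => (h3 x).symm, rfl⟩
  refine q1.trans (Quot.sound ?_)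
  let G' : (M × (ℕ →₀ D)) ↪[Lmod R] P := linEmb g' hg1'
  exact ⟨P, modStr R P, linEmb g hg1, G', hg2, hg2', hg3, hg4⟩

end

/-- Let `R` be a countable ring and `K` an abstract elementary class of `R`-modules with
`LS(K) = ℵ₀`. If `K` is categorical in one cardinal `μ ≥ H₁`, then `K` is `(H₁, ∞)`-tame. -/
theorem result (R : Type) [Ring R] [Countable R] (K : AEC (Lmod R)) (hLS : K.LSat ℵ₀)
    (hmod : ∀ (N : Type) (S : (Lmod R).Structure N), @AEC.mem _ K N S → IsMod R N S)
    (μ : Cardinal.{0}) (hμ : hanf ℵ₀ ≤ μ) (hcat : K.Categorical μ) : Tame K (hanf ℵ₀) := by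
  classical
  obtain ⟨E, _, _, D, _, _, hc⟩ := main_coll_AEC K hLS hmod μ hμ hcat
  intro M S hm p q hpq
  by_contra hcon
  have hcon' : ∀ (M₀ : Type) (S₀ : (Lmod R).Structure M₀) (i : M₀ ↪[Lmod R] M) (hi : K.emb i),
      #M₀ ≤ hanf ℵ₀ → p.restrict i hi = q.restrict i hi := by
    intro M₀ S₀ i hi h
    by_contra hne
    exact hcon ⟨M₀, S₀, i, hi, h, hne⟩
  apply hpq
  rcases le_or_gt #M (hanf ℵ₀) with hM | hM
  · have h := hcon' M S (Language.Embedding.refl _ M)
      (K.emb_equiv (Language.Equiv.refl (Lmod R) M) hm) hM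
    have key : ∀ t : GS K M, t.restrict (Language.Embedding.refl _ M)
        (K.emb_equiv (Language.Equiv.refl (Lmod R) M) hm) = t := by
      intro t
      induction t using Quot.inductionOn with
      | h t =>
        exact Quot.sound ⟨t.N, t.str, Language.Embedding.refl _ t.N,
          Language.Embedding.refl _ t.N,
          K.emb_equiv (Language.Equiv.refl (Lmod R) t.N) (K.emb_mem _ t.emb).2,
          K.emb_equiv (Language.Equiv.refl (Lmod R) t.N) (K.emb_mem _ t.emb).2,
          fun _ => rfl, rfl⟩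
    rw [key p, key q] at h
    exact h
  · obtain ⟨j1, j2, rfl⟩ := hmod M S hm
    letI := modStr R M
    have hinl : (KKof K hLS).emb (LinearMap.inl R M (ℕ →₀ D)) := hc.inl M hm hM.le ℕ
    have hn : ∀ t : GS K M, ∃ (m : M) (w : ℕ →₀ D), t =
        Quot.mk _ (std hLS hinl m w) := by
      intro t
      induction t using Quot.inductionOn with
      | h t => exact norm hLS hmod hc hM.le hinl t
    obtain ⟨m, w, rfl⟩ := hn p
    obtain ⟨m', w', rfl⟩ := hn q
    obtain ⟨B, iB1, iB2, i₀, b, b', j, hB, hi₀, hb, hb', hj, hj2, hinlB, hfin⟩ :=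
      tame_KK hc hm hM m m' w w'
    letI := modStr R B
    have h1 := hcon' B (modStr R B) (linEmb i₀ hi₀.1) hi₀.2 hB.le
    have h2 := Quot.eqvGen_exact h1
    have hBY : #(B × (ℕ →₀ D)) = #B := by
      haveI := hc.cD
      have hH : ℵ₀ ≤ hanf ℵ₀ := (Pool.Agent.H288R4.LS.self_lt_hanf le_rfl).le
      rw [mk_prod, Cardinal.lift_id, Cardinal.lift_id]
      exact mul_eq_left (hH.trans hB.ge) ((mk_le_aleph0 (α := ℕ →₀ D)).trans (hH.trans hB.ge))
        (mk_ne_zero _)
    letI := modStr R (B × (ℕ →₀ D))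
    letI := modStr R (M × (ℕ →₀ D))
    let J : (B × (ℕ →₀ D)) ↪[Lmod R] (M × (ℕ →₀ D)) := linEmb j hj.1
    have e1 : j (b, w) = (m, w) := by rw [hj2, hb]
    have e2 : j (b', w') = (m', w') := by rw [hj2, hb']
    obtain ⟨P₀, k1, k2, g, g', hg, hg', hgg, hgb⟩ := gen hLS hmod hc hB.ge h2
      (f := LinearMap.inl R B (ℕ →₀ D)) (f' := LinearMap.inl R B (ℕ →₀ D)) (a := (b, w))
      (a' := (b', w')) ⟨hinlB, hBY, J, hj.2, fun x => hj2 x 0, e1⟩
      ⟨hinlB, hBY, J, hj.2, fun x => hj2 x 0, e2⟩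
    obtain ⟨P, l1, l2, h, h', hh, hh', hhh, hhb⟩ := hfin P₀ g g' hg hg' hgg hgb
    letI := modStr R P
    let H : (M × (ℕ →₀ D)) ↪[Lmod R] P := linEmb h hh.1
    let H' : (M × (ℕ →₀ D)) ↪[Lmod R] P := linEmb h' hh'.1
    exact Quot.sound ⟨P, modStr R P, H, H', hh.2, hh'.2, hhh, hhb⟩

end Pool.Agent.Results.MP_c32da3_lc.ModulesTameness
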